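import Pool.Agent.W_MP_69fa08_nt.Final

/-!
# No power `θ_d ^ k` with `d ≥ 6`, `k ≥ 2` is a Parry number

`θ_d` is the unique real root greater than `1` of `x^d - x^(d-1) - 1`.

Outline. If `β = θ^k` is a Parry number and `α` is a conjugate of `θ` with `|α| > 1`, then the
orbit of `1` under `T_β` has a bounded conjugate orbit with multiplier `z = α^k`.  Two explicit
necessary inequalities for this (`PowTri.critG`, `PowTri.critH`) are refuted: analytically for
`d ≥ 1500` (`PowTri.caseG`, `PowTri.caseH`) and by a verified computation with integer ball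
arithmetic for `6 ≤ d < 1500` (`PowTri.rows_sound`).
-/

set_option autoImplicit false

namespace Pool.Agent.Results.MP_69fa08_nt.NeverParry

/-- The beta transformation `T_β(x) = βx - ⌊βx⌋`. -/
noncomputable def betaMap (β x : ℝ) : ℝ := β * x - (⌊β * x⌋ : ℝ)

/-- `β` is a Parry number: the set `{T_β^n(1) : n ≥ 1}` is finite. -/
def IsParryNumber (β : ℝ) : Prop := {x : ℝ | ∃ n : ℕ, 1 ≤ n ∧ x = (betaMap β)^[n] 1}.Finite

/-- For every `d ≥ 6` there is exactly one real `θ > 1` with `θ^d - θ^(d-1) - 1 = 0`, and for it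
no power `θ^k` with `k ≥ 2` is a Parry number. -/
theorem result : ∀ d : ℕ, 6 ≤ d →
    (∃! θ : ℝ, 1 < θ ∧ θ ^ d - θ ^ (d - 1) - 1 = 0) ∧
    ∀ θ : ℝ, 1 < θ → θ ^ d - θ ^ (d - 1) - 1 = 0 → ∀ k : ℕ, 2 ≤ k → ¬ IsParryNumber (θ ^ k) := by
  intro d hd
  refine ⟨PowTri.exists_unique_root (by omega), ?_⟩
  intro θ h1 h0 k hk hP
  obtain ⟨n, rfl⟩ : ∃ n, d = n + 1 := ⟨d - 1, by omega⟩
  simp only [Nat.add_sub_cancel] at h0
  refine PowTri.not_parry (n := n) (by omega) h1 (by linarith) hk (hP.subset ?_)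
  rintro _ ⟨m, rfl⟩
  exact ⟨m + 1, by omega, rfl⟩

end Pool.Agent.Results.MP_69fa08_nt.NeverParry
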